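import Pool.Agent.R612.SU.Stm

/-!
# PIECE NE: nestedness
-/

open MeasureTheory Set Filter Topology

namespace Pool.Agent.R825.SU

open Pool.Agent.R612.SU

theorem q_nonneg (t : ℝ) : 0 ≤ q t := sq_nonneg _

theorem q_le_one (t : ℝ) : q t ≤ 1 := by
  unfold q
  have h0 : 0 ≤ max 0 (1 - 2 * |t|) := le_max_left _ _
  have h1 : max 0 (1 - 2 * |t|) ≤ 1 := max_le (by norm_num) (by linarith [abs_nonneg t])
  nlinarith

theorem prof_le {f : ℤ → ℝ} {M : ℝ} (hM : 0 ≤ M) (hf : ∀ s, f s ≤ M) (y : ℝ) : prof f y ≤ M := by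
  unfold prof
  have h0 := q_nonneg (y - round y)
  have h1 := q_le_one (y - round y)
  have h2 := hf (round y)
  nlinarith

theorem le_prof {f : ℤ → ℝ} {M : ℝ} (hM : 0 ≤ M) (hf : ∀ s, -M ≤ f s) (y : ℝ) :
    -M ≤ prof f y := by
  unfold prof
  have h0 := q_nonneg (y - round y)
  have h1 := q_le_one (y - round y)
  have h2 := hf (round y)
  nlinarith

theorem colA_le (d e : ℝ) (c : ℕ) (hd : 0 < d) (he : 0 < e) (y : ℝ) : colA d e c y ≤ d := by
  unfold colA
  refine prof_le hd.le (fun s => ?_) y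
  split_ifs
  · exact le_rfl
  · linarith

theorem le_colA (d e : ℝ) (c : ℕ) (hd : 0 < d) (he : 0 < e) (y : ℝ) : -e ≤ colA d e c y := by
  unfold colA
  refine le_prof he.le (fun s => ?_) y
  split_ifs
  · linarith
  · exact le_rfl

theorem colB_le (d e : ℝ) (c K : ℕ) (hd : 0 < d) (he : 0 < e) (y : ℝ) : colB d e c K y ≤ e := by
  unfold colB
  refine prof_le he.le (fun s => ?_) y
  split_ifs
  · linarith
  · exact le_rfl

/-- an open box in the region -/
def box (d e : ℝ) (c I J : ℕ) : Set ℂ :=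
  {z | |z.im| < (2 * J + 3) * (c + 1 / 2) ∧ |z.re| < W d e * (4 * I + 7) - e}

theorem box_sub (d e : ℝ) (c K I J : ℕ) (hd : 0 < d) (he : 0 < e) :
    box d e c I J ⊆ interior (UU d e c K (I + 1) (J + 1)) := by
  refine interior_maximal ?_ ?_
  · rintro z ⟨h1, h2⟩
    left
    refine ⟨?_, ?_⟩
    · push_cast
      calc |z.im| ≤ (2 * J + 3) * (c + 1 / 2) := h1.le
        _ = (2 * ((J : ℝ) + 1) + 1) * (c + 1 / 2) := by ring
    · push_cast
      have := le_colA d e c hd he z.im
      calc |z.re| ≤ W d e * (4 * I + 7) - e := h2.le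
        _ = W d e * (4 * ((I : ℝ) + 1) + 3) - e := by ring
        _ ≤ _ := by linarith
  · exact (isOpen_lt (continuous_abs.comp Complex.continuous_im) continuous_const).inter
      (isOpen_lt (continuous_abs.comp Complex.continuous_re) continuous_const)

theorem W_pos (d e : ℝ) (hd : 0 < d) (he : 0 < e) : 0 < W d e := by
  unfold W; linarith

theorem part1 (d e : ℝ) (c K I J : ℕ) (hd : 0 < d) (he : 0 < e) (hJ : J < c) :
    UU d e c K I J ⊆ interior (UU d e c K (I + 1) (J + 1)) := by
  refine Subset.trans ?_ (box_sub d e c K I J hd he)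
  have hJ' : (J : ℝ) < c := by exact_mod_cast hJ
  have hJ0 : (0 : ℝ) ≤ J := Nat.cast_nonneg J
  have hI0 : (0 : ℝ) ≤ I := Nat.cast_nonneg I
  have hW := W_pos d e hd he
  have hWd : W d e = 2 * (d + e) + 1 := rfl
  rintro z (⟨h1, h2⟩ | ⟨h1, i, hi, _, h2⟩)
  · refine ⟨?_, ?_⟩
    · nlinarith
    · have := colA_le d e c hd he z.im
      nlinarith
  · refine ⟨?_, ?_⟩
    · nlinarith
    · have hb := colB_le d e c K hd he z.im
      have hi' : |(i : ℝ)| ≤ 2 * I := by exact_mod_cast hi
      have h3 : |z.re| ≤ |z.re - 2 * W d e * i| + |2 * W d e * i| := by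
        calc |z.re| = |(z.re - 2 * W d e * i) + 2 * W d e * i| := by ring_nf
          _ ≤ _ := abs_add_le _ _
      have h4 : |2 * W d e * (i : ℝ)| = 2 * W d e * |(i : ℝ)| := by
        rw [abs_mul, abs_of_pos (by linarith : (0 : ℝ) < 2 * W d e)]
      rw [h4] at h3
      have h5 : 2 * W d e * |(i : ℝ)| ≤ 2 * W d e * (2 * I) :=
        mul_le_mul_of_nonneg_left hi' (by linarith)
      have h6 : |z.re| ≤ W d e + e + 2 * W d e * (2 * I) := by linarith
      nlinarith

theorem part2 (d e : ℝ) (c K : ℕ) (hd : 0 < d) (he : 0 < e) (hK : 1 ≤ K) (hKc : K ≤ c) :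
    tr (tA d e c) (2 * W d e * 1) 0 ⊆ interior (UU d e c K 1 1) ∧
    tr (tB d e c K) 0 0 ⊆ interior (UU d e c K 1 1) ∧
    tr (tF d e) (W d e) 1 ⊆ interior (UU d e c K 1 1) := by
  have hW := W_pos d e hd he
  have hWd : W d e = 2 * (d + e) + 1 := rfl
  have hc : (1 : ℝ) ≤ c := by exact_mod_cast (le_trans hK hKc)
  have hbox : box d e c 0 0 ⊆ interior (UU d e c K 1 1) := by
    simpa using box_sub d e c K 0 0 hd he
  refine ⟨Subset.trans ?_ hbox, Subset.trans ?_ hbox, Subset.trans ?_ hbox⟩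
  · rintro _ ⟨z, ⟨h1, h2⟩, rfl⟩
    have hp : prof (fa d e) z.im ≤ d := by
      refine prof_le hd.le (fun s => ?_) _
      unfold fa
      split_ifs
      · exact le_rfl
      · linarith
    have h3 := abs_le.1 h1
    have h4 := abs_le.1 h2
    refine ⟨?_, ?_⟩
    · simp only [Complex.add_im]
      rw [abs_lt]
      push_cast
      constructor <;> linarith [h3.1, h3.2]
    · simp only [Complex.add_re]
      rw [abs_lt]
      push_cast
      constructor <;> nlinarith [h4.1, h4.2]
  · rintro _ ⟨z, ⟨h1, h2⟩, rfl⟩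
    have hp : prof (fb d e K) z.im ≤ e := by
      refine prof_le he.le (fun s => ?_) _
      unfold fb
      split_ifs
      · linarith
      · exact le_rfl
    have h3 := abs_le.1 h1
    have h4 := abs_le.1 h2
    refine ⟨?_, ?_⟩
    · simp only [Complex.add_im]
      rw [abs_lt]
      push_cast
      constructor <;> linarith [h3.1, h3.2]
    · simp only [Complex.add_re]
      rw [abs_lt]
      push_cast
      constructor <;> nlinarith [h4.1, h4.2]
  · rintro _ ⟨z, ⟨h1, h2, h2'⟩, rfl⟩
    have hq0 := q_nonneg z.im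
    have hq1 := q_le_one z.im
    have h3 := abs_le.1 h1
    have h5 : d * q z.im ≤ d := by nlinarith
    have h6 : e * q z.im ≤ e := by nlinarith
    refine ⟨?_, ?_⟩
    · simp only [Complex.add_im]
      rw [abs_lt]
      push_cast
      constructor <;> linarith [h3.1, h3.2]
    · simp only [Complex.add_re]
      rw [abs_lt]
      push_cast
      constructor <;> linarith

theorem stNE : StNE :=
  ⟨fun d e c K I J hd he hJ => part1 d e c K I J hd he hJ,
    fun d e c K hd he hK hKc => part2 d e c K hd he hK hKc⟩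

end Pool.Agent.R825.SU
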