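import Pool.Agent.R612.SU.Stm

/-!
# PIECE SL: density of a region bounded by a graph with one-sided slopes
-/

open MeasureTheory Set Filter Topology
open scoped Pointwise

namespace Pool.Agent.R825.SU

open Pool.Agent.R612.SU

/-- the line `re = s im` is null -/
theorem line_null (s : ℝ) : volume {z : ℂ | z.re = s * z.im} = 0 := by
  have h := Measure.addHaar_submodule (volume : Measure ℂ)
    (LinearMap.ker (Complex.reLm - s • Complex.imLm)) (by
      intro h
      have h1 : (1 : ℂ) ∈ LinearMap.ker (Complex.reLm - s • Complex.imLm) := by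
        rw [h]; trivial
      simp at h1)
  convert h using 2
  ext z
  simp [sub_eq_zero]

/-- the line `im = 0` is null -/
theorem line_null' : volume {z : ℂ | z.im = 0} = 0 := by
  have h := Measure.addHaar_submodule (volume : Measure ℂ)
    (LinearMap.ker Complex.imLm) (by
      intro h
      have h1 : (Complex.I : ℂ) ∈ LinearMap.ker Complex.imLm := by
        rw [h]; trivial
      simp at h1)
  convert h using 2
  ext z
  simp

/-- the rescaled region -/
def As (w : ℝ → ℝ) (y0 r : ℝ) : Set ℂ :=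
  {z | z.re ≤ (w (y0 + r * z.im) - w y0) / r} ∩ Metric.ball 0 1

theorem As_meas (w : ℝ → ℝ) (hw : Continuous w) (y0 r : ℝ) : MeasurableSet (As w y0 r) := by
  refine MeasurableSet.inter ?_ Metric.isOpen_ball.measurableSet
  refine (isClosed_le Complex.continuous_re ?_).measurableSet
  exact ((hw.comp (continuous_const.add (continuous_const.mul Complex.continuous_im))).sub
    continuous_const).div_const _

/-- the cone set -/
def Cn (s1 s2 : ℝ) : Set ℂ :=
  {z : ℂ | (0 ≤ z.im → z.re ≤ s1 * z.im) ∧ (z.im ≤ 0 → z.re ≤ s2 * z.im)} ∩ Metric.ball 0 1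

theorem Cn_meas (s1 s2 : ℝ) : MeasurableSet (Cn s1 s2) := by
  refine MeasurableSet.inter ?_ Metric.isOpen_ball.measurableSet
  have e : {z : ℂ | (0 ≤ z.im → z.re ≤ s1 * z.im) ∧ (z.im ≤ 0 → z.re ≤ s2 * z.im)} =
      ({z : ℂ | z.im < 0} ∪ {z : ℂ | z.re ≤ s1 * z.im}) ∩
      ({z : ℂ | 0 < z.im} ∪ {z : ℂ | z.re ≤ s2 * z.im}) := by
    ext z
    simp only [mem_ofPred_eq, mem_inter_iff, mem_union]
    constructor
    · rintro ⟨h1, h2⟩
      constructor
      · by_cases h : z.im < 0
        · left; exact h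
        · right; exact h1 (not_lt.1 h)
      · by_cases h : 0 < z.im
        · left; exact h
        · right; exact h2 (not_lt.1 h)
    · rintro ⟨h1, h2⟩
      refine ⟨fun h => ?_, fun h => ?_⟩
      · rcases h1 with h1 | h1
        · exact absurd h1 (not_lt.2 h)
        · exact h1
      · rcases h2 with h2 | h2
        · exact absurd h2 (not_lt.2 h)
        · exact h2
  rw [e]
  refine MeasurableSet.inter (MeasurableSet.union ?_ ?_) (MeasurableSet.union ?_ ?_)
  · exact (isOpen_lt Complex.continuous_im continuous_const).measurableSet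
  · exact (isClosed_le Complex.continuous_re
      (continuous_const.mul Complex.continuous_im)).measurableSet
  · exact (isOpen_lt continuous_const Complex.continuous_im).measurableSet
  · exact (isClosed_le Complex.continuous_re
      (continuous_const.mul Complex.continuous_im)).measurableSet

/-- the limit of the measures of the rescaled regions -/
theorem tendsto_As (w : ℝ → ℝ) (y0 s1 s2 : ℝ) (hw : Continuous w)
    (h1 : Tendsto (fun h => (w (y0 + h) - w y0) / h) (𝓝[>] 0) (𝓝 s1))
    (h2 : Tendsto (fun h => (w (y0 + h) - w y0) / h) (𝓝[<] 0) (𝓝 s2)) :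
    Tendsto (fun r => volume (As w y0 r)) (𝓝[>] 0) (𝓝 (volume (Cn s1 s2))) := by
  refine tendsto_measure_of_ae_tendsto_indicator (𝓝[>] (0 : ℝ)) (Cn_meas s1 s2)
    (fun r => As_meas w hw y0 r) (B := Metric.ball 0 1) Metric.isOpen_ball.measurableSet
    (measure_ball_lt_top).ne (Eventually.of_forall fun r => inter_subset_right) ?_
  have n1 := line_null s1
  have n2 := line_null s2
  have n3 := line_null'
  have ev : ∀ᵐ z : ℂ, z.re ≠ s1 * z.im ∧ z.re ≠ s2 * z.im ∧ z.im ≠ 0 := by
    have e1 : ∀ᵐ z : ℂ, z.re ≠ s1 * z.im := by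
      rw [ae_iff]; simpa using n1
    have e2 : ∀ᵐ z : ℂ, z.re ≠ s2 * z.im := by
      rw [ae_iff]; simpa using n2
    have e3 : ∀ᵐ z : ℂ, z.im ≠ 0 := by
      rw [ae_iff]; simpa using n3
    filter_upwards [e1, e2, e3] with z a b c using ⟨a, b, c⟩
  filter_upwards [ev] with z hz
  obtain ⟨hz1, hz2, hz3⟩ := hz
  rcases lt_or_gt_of_ne hz3 with hneg | hpos
  · -- im z < 0
    have hl : Tendsto (fun r : ℝ => (w (y0 + r * z.im) - w y0) / r) (𝓝[>] 0)
        (𝓝 (s2 * z.im)) := by
      have hm : Tendsto (fun r : ℝ => r * z.im) (𝓝[>] 0) (𝓝[<] 0) := by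
        rw [tendsto_nhdsWithin_iff]
        constructor
        · have : Tendsto (fun r : ℝ => r * z.im) (𝓝 0) (𝓝 (0 * z.im)) :=
            (continuous_id.mul continuous_const).tendsto 0
          rw [zero_mul] at this
          exact this.mono_left nhdsWithin_le_nhds
        · filter_upwards [self_mem_nhdsWithin] with r hr
          exact mul_neg_of_pos_of_neg hr hneg
      have := (h2.comp hm).mul_const z.im
      refine this.congr' ?_
      filter_upwards [self_mem_nhdsWithin] with r hr
      have hr0 : r ≠ 0 := ne_of_gt hr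
      simp only [Function.comp]
      field_simp
    rcases lt_or_gt_of_ne hz2 with h | h
    · filter_upwards [hl.eventually (lt_mem_nhds h)] with r hr
      constructor
      · rintro ⟨_, hb⟩
        exact ⟨⟨fun h0 => absurd hneg (not_lt.2 h0), fun _ => h.le⟩, hb⟩
      · rintro ⟨_, hb⟩
        exact ⟨hr.le, hb⟩
    · filter_upwards [hl.eventually (gt_mem_nhds h)] with r hr
      constructor
      · rintro ⟨ha, hb⟩
        exact absurd ha (not_le.2 hr)
      · rintro ⟨⟨_, ha⟩, hb⟩
        exact absurd (ha hneg.le) (not_le.2 h)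
  · have hl : Tendsto (fun r : ℝ => (w (y0 + r * z.im) - w y0) / r) (𝓝[>] 0)
        (𝓝 (s1 * z.im)) := by
      have hm : Tendsto (fun r : ℝ => r * z.im) (𝓝[>] 0) (𝓝[>] 0) := by
        rw [tendsto_nhdsWithin_iff]
        constructor
        · have : Tendsto (fun r : ℝ => r * z.im) (𝓝 0) (𝓝 (0 * z.im)) :=
            (continuous_id.mul continuous_const).tendsto 0
          rw [zero_mul] at this
          exact this.mono_left nhdsWithin_le_nhds
        · filter_upwards [self_mem_nhdsWithin] with r hr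
          exact mul_pos hr hpos
      have := (h1.comp hm).mul_const z.im
      refine this.congr' ?_
      filter_upwards [self_mem_nhdsWithin] with r hr
      have hr0 : r ≠ 0 := ne_of_gt hr
      simp only [Function.comp]
      field_simp
    rcases lt_or_gt_of_ne hz1 with h | h
    · filter_upwards [hl.eventually (lt_mem_nhds h)] with r hr
      constructor
      · rintro ⟨_, hb⟩
        exact ⟨⟨fun _ => h.le, fun h0 => absurd hpos (not_lt.2 h0)⟩, hb⟩
      · rintro ⟨_, hb⟩
        exact ⟨hr.le, hb⟩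
    · filter_upwards [hl.eventually (gt_mem_nhds h)] with r hr
      constructor
      · rintro ⟨ha, hb⟩
        exact absurd ha (not_le.2 hr)
      · rintro ⟨⟨ha, _⟩, hb⟩
        exact absurd (ha hpos.le) (not_le.2 h)

/-- scaling -/
theorem vol_eq (w : ℝ → ℝ) (y0 r : ℝ) (hr : 0 < r) :
    volume ({z : ℂ | z.re ≤ w z.im} ∩ Metric.ball (⟨w y0, y0⟩ : ℂ) r) =
      ENNReal.ofReal (r ^ 2) * volume (As w y0 r) := by
  set p : ℂ := ⟨w y0, y0⟩ with hp
  have e : {z : ℂ | z.re ≤ w z.im} ∩ Metric.ball p r = (fun z => p + z) '' (r • As w y0 r) := by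
    ext z
    simp only [mem_image, mem_inter_iff, mem_ofPred_eq, Metric.mem_ball, Set.mem_smul_set]
    constructor
    · rintro ⟨h1, h2⟩
      refine ⟨z - p, ⟨(r⁻¹ : ℝ) • (z - p), ⟨?_, ?_⟩, ?_⟩, by ring⟩
      · simp only [mem_ofPred_eq, Complex.smul_re, Complex.smul_im, Complex.sub_re, Complex.sub_im,
          smul_eq_mul, hp]
        rw [show y0 + r * (r⁻¹ * (z.im - y0)) = z.im by field_simp; ring]
        rw [div_eq_inv_mul]
        exact mul_le_mul_of_nonneg_left (by linarith) (inv_nonneg.2 hr.le)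
      · rw [Metric.mem_ball, dist_zero_right, norm_smul, Real.norm_of_nonneg (inv_nonneg.2 hr.le)]
        rw [dist_eq_norm] at h2
        rw [inv_mul_lt_iff₀ hr, mul_one]
        exact h2
      · rw [smul_smul, mul_inv_cancel₀ hr.ne', one_smul]
    · rintro ⟨u, ⟨v, ⟨hv1, hv2⟩, rfl⟩, rfl⟩
      constructor
      · simp only [mem_ofPred_eq] at hv1
        simp only [Complex.add_re, Complex.add_im, Complex.smul_re, Complex.smul_im, smul_eq_mul,
          hp]
        rw [le_div_iff₀ hr] at hv1
        linarith [mul_comm v.re r]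
      · rw [Metric.mem_ball, dist_zero_right] at hv2
        rw [dist_eq_norm, add_sub_cancel_left, norm_smul, Real.norm_of_nonneg hr.le]
        calc r * ‖v‖ < r * 1 := mul_lt_mul_of_pos_left hv2 hr
          _ = r := mul_one r
  rw [e, image_add_left, measure_preimage_add, Measure.addHaar_smul, Complex.finrank_real_complex,
    abs_of_nonneg (sq_nonneg r)]

theorem hasDens_graph (w : ℝ → ℝ) (y0 s1 s2 r0 : ℝ) (T : Set ℂ) (hw : Continuous w)
    (hr0 : 0 < r0)
    (hT : T ∩ Metric.ball (⟨w y0, y0⟩ : ℂ) r0 =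
      {z | z.re ≤ w z.im} ∩ Metric.ball (⟨w y0, y0⟩ : ℂ) r0)
    (h1 : Tendsto (fun h => (w (y0 + h) - w y0) / h) (𝓝[>] 0) (𝓝 s1))
    (h2 : Tendsto (fun h => (w (y0 + h) - w y0) / h) (𝓝[<] 0) (𝓝 s2)) :
    HasDens T ⟨w y0, y0⟩ (cone s1 s2) := by
  have hlim := tendsto_As w y0 s1 s2 hw h1 h2
  have hfin : volume (Cn s1 s2) ≠ ⊤ :=
    ((measure_mono inter_subset_right).trans_lt measure_ball_lt_top).ne
  have hlim' := ((ENNReal.tendsto_toReal hfin).comp hlim).div_const Real.pi
  have hc : cone s1 s2 = (volume (Cn s1 s2)).toReal / Real.pi := rfl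
  rw [← hc] at hlim'
  refine hlim'.congr' ?_
  filter_upwards [Ioo_mem_nhdsGT hr0] with r hr
  have hsub : T ∩ Metric.ball (⟨w y0, y0⟩ : ℂ) r =
      {z | z.re ≤ w z.im} ∩ Metric.ball (⟨w y0, y0⟩ : ℂ) r := by
    have hb : Metric.ball (⟨w y0, y0⟩ : ℂ) r0 ∩ Metric.ball (⟨w y0, y0⟩ : ℂ) r =
        Metric.ball (⟨w y0, y0⟩ : ℂ) r :=
      inter_eq_right.2 (Metric.ball_subset_ball hr.2.le)
    rw [← hb, ← inter_assoc, hT, inter_assoc]
  rw [hsub, vol_eq w y0 r hr.1, ENNReal.toReal_mul, ENNReal.toReal_ofReal (sq_nonneg r)]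
  simp only [Function.comp]
  have : r ≠ 0 := hr.1.ne'
  field_simp

theorem cone_self (s : ℝ) : cone s s = 1 / 2 := by
  have e : {z : ℂ | (0 ≤ z.im → z.re ≤ s * z.im) ∧ (z.im ≤ 0 → z.re ≤ s * z.im)} =
      {z : ℂ | z.re ≤ s * z.im} := by
    ext z
    simp only [mem_ofPred_eq]
    constructor
    · rintro ⟨h1, h2⟩
      rcases le_total 0 z.im with h | h
      · exact h1 h
      · exact h2 h
    · intro h
      exact ⟨fun _ => h, fun _ => h⟩
  set A : Set ℂ := {z : ℂ | z.re ≤ s * z.im} ∩ Metric.ball 0 1 with hA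
  set B : Set ℂ := {z : ℂ | s * z.im ≤ z.re} ∩ Metric.ball 0 1 with hB
  have hAm : MeasurableSet A := (isClosed_le Complex.continuous_re
      (continuous_const.mul Complex.continuous_im)).measurableSet.inter
      Metric.isOpen_ball.measurableSet
  have hBm : MeasurableSet B := (isClosed_le (continuous_const.mul Complex.continuous_im)
      Complex.continuous_re).measurableSet.inter
      Metric.isOpen_ball.measurableSet
  have hAB : volume B = volume A := by
    have : B = (fun z : ℂ => -z) ⁻¹' A := by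
      ext z
      simp only [hA, hB, mem_inter_iff, mem_ofPred_eq, mem_preimage, Complex.neg_re, Complex.neg_im,
        Metric.mem_ball, dist_zero_right, norm_neg]
      constructor
      · rintro ⟨h1, h2⟩; exact ⟨by linarith, h2⟩
      · rintro ⟨h1, h2⟩; exact ⟨by linarith, h2⟩
    rw [this]
    exact Measure.measure_preimage_neg volume A
  have hU : A ∪ B = Metric.ball 0 1 := by
    rw [hA, hB, ← union_inter_distrib_right]
    refine inter_eq_right.2 fun z _ => ?_
    exact le_total z.re (s * z.im)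
  have hI : volume (A ∩ B) = 0 := by
    refine measure_mono_null ?_ (line_null s)
    rintro z ⟨⟨h1, _⟩, ⟨h2, _⟩⟩
    exact le_antisymm h1 h2
  have hsum := measure_union_add_inter A hBm (μ := volume)
  rw [hU, hI, add_zero, hAB, Complex.volume_ball] at hsum
  have hfin : volume A ≠ ⊤ :=
    ((measure_mono inter_subset_right).trans_lt measure_ball_lt_top).ne
  have hr := congrArg ENNReal.toReal hsum
  rw [ENNReal.toReal_add hfin hfin] at hr
  simp at hr
  unfold cone
  rw [e]
  change (volume A).toReal / Real.pi = 1 / 2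
  have hpi : (Real.pi : ℝ) ≠ 0 := Real.pi_ne_zero
  rw [div_eq_div_iff hpi two_ne_zero]
  linarith

theorem cone_neg (s : ℝ) : cone (-s) s = th s := by
  unfold cone th
  congr 4
  ext z
  simp only [mem_ofPred_eq]
  constructor
  · rintro ⟨h1, h2⟩
    rcases le_total 0 z.im with h | h
    · rw [abs_of_nonneg h]; linarith [h1 h]
    · rw [abs_of_nonpos h]; linarith [h2 h]
  · intro h
    refine ⟨fun h' => ?_, fun h' => ?_⟩
    · rw [abs_of_nonneg h'] at h; linarith
    · rw [abs_of_nonpos h'] at h; linarith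

theorem stSL : StSL := by
  refine ⟨?_, cone_self, cone_neg⟩
  intro w y0 s1 s2 r0 T hw hr0 hT h1 h2
  exact hasDens_graph w y0 s1 s2 r0 T hw hr0 hT h1 h2

end Pool.Agent.R825.SU
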